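import Mathlib
import Pool.Agent.H1.VojtaA

set_option autoImplicit false

namespace Pool.Agent.Results.MP_e44225_nt.Disproof

noncomputable def loc (a b : ℝ) : ℝ := Real.posLog a⁻¹ + Real.posLog b⁻¹ + Real.posLog a

noncomputable def prox (P : Finset ℕ) (x : ℚ) : ℝ :=
  loc |(x : ℝ)| |((x - 1 : ℚ) : ℝ)| + ∑ p ∈ P, loc (padicNorm p x) (padicNorm p (x - 1))

theorem result : ∀ C : ℝ, 0 < C → ∃ P : Finset ℕ, (∀ p ∈ P, p.Prime) ∧ ∀ B : ℝ,
    {x : ℚ | x ≠ 0 ∧ x ≠ 1 ∧
      C * Real.posLog (Height.logHeight₁ x + B) + B ≤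
        -2 * Height.logHeight₁ x + prox P x}.Infinite := by
  classical
  intro C hC
  obtain ⟨n, hn⟩ := exists_nat_ge (C + 1)
  obtain ⟨T, hT, hTc⟩ := (Nat.infinite_setOfPred_prime.sdiff (Set.finite_singleton 2)).exists_subset_card_eq n
  have hTp : ∀ p ∈ T, p.Prime := fun p hp => (hT hp).1
  have hT2 : 2 ∉ T := fun h => (hT h).2 rfl
  have hT0 : T.Nonempty := by
    rw [← Finset.card_pos, hTc]
    have : (0 : ℝ) < n := by linarith
    exact_mod_cast this
  refine ⟨insert 2 T, fun p hp => ?_, fun B hfin => ?_⟩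
  · rcases Finset.mem_insert.mp hp with rfl | h
    · exact Nat.prime_two
    · exact hTp p h
  obtain ⟨K, hK⟩ := (hfin.image fun x => -2 * Height.logHeight₁ x + prox (insert 2 T) x -
    C * Real.posLog (Height.logHeight₁ x + B)).bddAbove
  have hl2 : 0 < Real.log 2 := Real.log_pos (by norm_num)
  obtain ⟨ℓ, hℓ⟩ : ∃ ℓ : ℝ, ℓ = 2 * Real.log (∏ p ∈ T, p : ℕ) := ⟨_, rfl⟩
  obtain ⟨j, hj⟩ := exists_nat_gt (1 + (|K| + |B| + C * (Real.log 2 + Real.posLog ℓ + Real.posLog B))
    / Real.log 2)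
  have hA : 0 ≤ |K| + |B| + C * (Real.log 2 + Real.posLog ℓ + Real.posLog B) := by
    have := Real.posLog_nonneg (x := ℓ)
    have := Real.posLog_nonneg (x := B)
    positivity
  have hj1 : 1 ≤ j := by
    have : (1 : ℝ) ≤ j := by linarith [div_nonneg hA hl2.le]
    exact_mod_cast this
  obtain ⟨x, hx0, hx1, hd, hd', hh, hv⟩ := Pool.Agent.H1.Vojta.exists_x T hTp hT2 hT0 j hj1
  have h1 := Pool.Agent.H1.Vojta.sum_posLog_ge (insert 2 T) x hx0
    fun p hp h => Finset.mem_insert_of_mem (hd p hp h)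
  have h2 := Pool.Agent.H1.Vojta.sum_posLog_ge (insert 2 T) x⁻¹ (inv_ne_zero hx0)
    fun p hp h => Finset.mem_insert_of_mem (hd' p hp h)
  rw [Height.logHeight₁_inv, Rat.cast_inv, abs_inv] at h2
  have h3 : ∑ p ∈ insert 2 T, Real.posLog (padicNorm p x⁻¹ : ℝ) =
      ∑ p ∈ insert 2 T, Real.posLog (padicNorm p x : ℝ)⁻¹ := by
    refine Finset.sum_congr rfl fun p hp => ?_
    have : Fact p.Prime := ⟨by
      rcases Finset.mem_insert.mp hp with rfl | h
      · exact Nat.prime_two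
      · exact hTp p h⟩
    rw [← one_div x, padicNorm.div, padicNorm.one, one_div, Rat.cast_inv]
  have h4 : Real.log (padicNorm 2 (x - 1) : ℝ)⁻¹ ≤
      ∑ p ∈ insert 2 T, Real.posLog (padicNorm p (x - 1) : ℝ)⁻¹ :=
    le_trans (le_max_right _ _) (Finset.single_le_sum
      (f := fun p => Real.posLog (padicNorm p (x - 1) : ℝ)⁻¹) (fun _ _ => Real.posLog_nonneg)
      (Finset.mem_insert_self 2 T))
  have h5 : (n * j - 1 : ℝ) * Real.log 2 ≤ -2 * Height.logHeight₁ x + prox (insert 2 T) x := by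
    unfold prox loc
    rw [Finset.sum_add_distrib, Finset.sum_add_distrib]
    rw [hTc] at hv
    linarith [Real.posLog_nonneg (x := |((x - 1 : ℚ) : ℝ)|⁻¹)]
  have h6 : Real.posLog (Height.logHeight₁ x + B) ≤
      j * Real.log 2 + (Real.log 2 + Real.posLog ℓ + Real.posLog B) := by
    have e1 := Real.posLog_add (x := Height.logHeight₁ x) (y := B)
    have e2 := Real.posLog_le_posLog (Height.zero_le_logHeight₁ x) hh
    have e3 := Real.posLog_mul (x := 2 ^ j) (y := ℓ)
    rw [Real.posLog_pow, Real.posLog_eq_log (x := 2) (by norm_num)] at e3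
    rw [← hℓ] at e2
    linarith
  have h7 : |K| + |B| < -2 * Height.logHeight₁ x + prox (insert 2 T) x -
      C * Real.posLog (Height.logHeight₁ x + B) := by
    have e1 := mul_le_mul_of_nonneg_left h6 hC.le
    have e2 : |K| + |B| + C * (Real.log 2 + Real.posLog ℓ + Real.posLog B) <
        (j - 1) * Real.log 2 := by
      rw [← div_lt_iff₀ hl2]
      linarith
    have e3 : (C + 1) * (j * Real.log 2) ≤ n * (j * Real.log 2) :=
      mul_le_mul_of_nonneg_right hn (by positivity)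
    nlinarith
  have h8 := hK ⟨x, ⟨hx0, hx1, by linarith [le_abs_self B, abs_nonneg K]⟩, rfl⟩
  simp only at h8
  linarith [le_abs_self K, abs_nonneg B]

end Pool.Agent.Results.MP_e44225_nt.Disproof
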